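import Pool.Agent.Lib.MP_798553_pr.ProbG

/-!
# MP_798553_pr: a noisy nilpotent cellular automaton with two invariant measures

In every dimension `d ≥ 2` and over every alphabet with `q ≥ 3` symbols there are a nilpotent
cellular automaton and a positive zero-range noise whose perturbation has two invariant
probability measures; in particular it is not ergodic.
-/

set_option autoImplicit false

open MeasureTheory Filter Topology
open scoped ENNReal

namespace Pool.Agent.Results.MP_798553_pr.TwoInvariantMeasures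

/-- The configurations on `ℤ^d` over the alphabet `Fin q` with `q` symbols, with the product
topology and the product `σ`-algebra. -/
abbrev Config (d q : ℕ) : Type := (Fin d → ℤ) → Fin q

/-- `F` is a cellular automaton: there are a finite neighbourhood `N` in `ℤ^d` and a local rule
`f` such that `F(x)_i = f((x_{i+u})_{u ∈ N})` for all `x` and `i`. -/
def IsCA {d q : ℕ} (F : Config d q → Config d q) : Prop :=
  ∃ (N : Finset (Fin d → ℤ)) (f : (N → Fin q) → Fin q),
    ∀ (x : Config d q) (i : Fin d → ℤ), F x i = f (fun u => x (i + u.1))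

/-- `F` is nilpotent: for some `n ≥ 1` and some symbol `a`, `F^n(x)` is the constant configuration
`a` for every `x`. -/
def IsNilpotent {d q : ℕ} (F : Config d q → Config d q) : Prop :=
  ∃ n : ℕ, 1 ≤ n ∧ ∃ a : Fin q, ∀ x : Config d q, F^[n] x = fun _ => a

/-- The zero-range noise with the stochastic matrix `θ`: the law of the configuration obtained
from `y` by replacing, independently at every site `i`, the symbol `y i = b` by `c` with
probability `θ b c`. -/
noncomputable def noise {d q : ℕ} (θ : Fin q → PMF (Fin q)) (y : Config d q) :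
    Measure (Config d q) :=
  Measure.infinitePi fun i => (θ (y i)).toMeasure

/-- The perturbation of `F` by `θ`, acting on measures: in one time step, first apply `F` and then
apply the noise. -/
noncomputable def perturb {d q : ℕ} (F : Config d q → Config d q) (θ : Fin q → PMF (Fin q))
    (μ : Measure (Config d q)) : Measure (Config d q) :=
  (μ.map F).bind (noise θ)

/-- `Φ` is ergodic: it has exactly one invariant probability measure `μ`, and `Φ^t ν → μ` weakly
as `t → ∞` for every initial probability measure `ν`. -/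
def IsErgodic {d q : ℕ} (Φ : Measure (Config d q) → Measure (Config d q)) : Prop :=
  ∃ μ : Measure (Config d q), IsProbabilityMeasure μ ∧ Φ μ = μ ∧
    (∀ ν : Measure (Config d q), IsProbabilityMeasure ν → Φ ν = ν → ν = μ) ∧
    ∀ ν : Measure (Config d q), IsProbabilityMeasure ν →
      ∀ g : Config d q → ℝ, Continuous g →
        Tendsto (fun t : ℕ => ∫ x, g x ∂(Φ^[t] ν)) atTop (𝓝 (∫ x, g x ∂μ))

section Aux

open Pool.Agent.MP798553

variable {d q : ℕ}

/-- The site with first coordinates `s`, `t` and all others `0`. -/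
def st (d : ℕ) (s t : ℤ) : Fin d → ℤ := fun k => if k.val = 0 then s else
  if k.val = 1 then t else 0

lemma st_add (s t s' t' : ℤ) : st d s t + st d s' t' = st d (s + s') (t + t') := by
  ext k
  simp only [st, Pi.add_apply]
  split_ifs <;> ring

lemma st_inj (hd : 2 ≤ d) {s t s' t' : ℤ} (h : st d s t = st d s' t') : s = s' ∧ t = t' := by
  have h0 := congrFun h ⟨0, by omega⟩
  have h1 := congrFun h ⟨1, by omega⟩
  simpa [st] using And.intro h0 h1

/-- The neighbourhood. -/
def nb (d : ℕ) : Finset (Fin d → ℤ) := {st d 0 0, st d 0 1, st d 1 0, st d 1 1}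

lemma m00 : st d 0 0 ∈ nb d := by simp [nb]
lemma m01 : st d 0 1 ∈ nb d := by simp [nb]
lemma m10 : st d 1 0 ∈ nb d := by simp [nb]
lemma m11 : st d 1 1 ∈ nb d := by simp [nb]

/-- The local rule with output `b` or `a`; it looks for two symbols `c`. -/
def loc (a b c : Fin q) (y : nb d → Fin q) : Fin q :=
  if (y ⟨_, m00⟩ = c ∧ y ⟨_, m01⟩ = c) ∨ (y ⟨_, m10⟩ = c ∧ y ⟨_, m11⟩ = c) then b else a

/-- The cellular automaton. -/
def FF (a b c : Fin q) (x : Config d q) (i : Fin d → ℤ) : Fin q :=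
  loc a b c (fun v => x (i + v.1))

lemma FF_eq (a b c : Fin q) (x : Config d q) (i : Fin d → ℤ) : FF a b c x i =
    if (x (i + st d 0 0) = c ∧ x (i + st d 0 1) = c) ∨
      (x (i + st d 1 0) = c ∧ x (i + st d 1 1) = c) then b else a := rfl

lemma FF_ne {a b c : Fin q} (hac : a ≠ c) (hbc : b ≠ c) (x : Config d q) (i : Fin d → ℤ) :
    FF a b c x i ≠ c := by
  rw [FF_eq]; split_ifs <;> assumption

lemma FF_nil {a b c : Fin q} (hac : a ≠ c) (hbc : b ≠ c) (x : Config d q) :
    (FF a b c)^[2] x = fun _ => a := by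
  ext1 i
  change FF a b c (FF a b c x) i = a
  rw [FF_eq, if_neg]
  simp [FF_ne hac hbc]

lemma continuous_FF (a b c : Fin q) : Continuous (FF (d := d) a b c) := by
  refine continuous_pi fun i => ?_
  have h1 : Continuous (loc (d := d) a b c) := continuous_of_discreteTopology
  refine h1.comp ?_
  exact continuous_pi fun v => continuous_apply _

/-- The small parameter. -/
noncomputable def ep : ℝ≥0∞ := (1 / 32 : ℝ≥0∞) ^ 4

lemma ep_le : ep ≤ 1 / 32 := by
  unfold ep
  refine (pow_le_pow_right_of_le_one' (m := 4) (n := 1) ?_ (by norm_num)).trans_eq (pow_one _)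
  rw [ENNReal.div_le_iff (by norm_num) (by norm_num)]
  norm_num

lemma ep_lt_one : ep < 1 := by
  refine ep_le.trans_lt ?_
  rw [ENNReal.div_lt_iff (by norm_num) (by norm_num)]
  norm_num

lemma ep_pos : 0 < ep := by
  unfold ep
  refine pos_iff_ne_zero.2 (pow_ne_zero _ ?_)
  simp

/-- The law which gives mass `p` to `c` and is uniform on the other symbols. -/
noncomputable def law (hq : 3 ≤ q) (c : Fin q) (p : ℝ≥0∞) (hp : p ≤ 1) : PMF (Fin q) :=
  PMF.ofFintype (fun x => if x = c then p else (1 - p) / ((q - 1 : ℕ) : ℝ≥0∞)) (by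
    rw [Finset.sum_ite, Finset.sum_const, Finset.sum_const, Finset.filter_eq' Finset.univ c,
      if_pos (Finset.mem_univ c), Finset.card_singleton, one_smul,
      Finset.filter_ne' Finset.univ c, Finset.card_erase_of_mem (Finset.mem_univ c),
      Finset.card_univ, Fintype.card_fin, nsmul_eq_mul, ENNReal.mul_div_cancel,
      add_tsub_cancel_of_le hp]
    · have : q - 1 ≠ 0 := by omega
      exact_mod_cast this
    · exact ENNReal.natCast_ne_top _)

lemma law_self (hq : 3 ≤ q) (c : Fin q) (p : ℝ≥0∞) (hp : p ≤ 1) : law hq c p hp c = p := by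
  simp [law, PMF.ofFintype_apply]

lemma law_pos (hq : 3 ≤ q) (c : Fin q) (p : ℝ≥0∞) (hp : p ≤ 1) (h0 : 0 < p) (h1 : p < 1)
    (x : Fin q) : 0 < law hq c p hp x := by
  rw [law, PMF.ofFintype_apply]
  split_ifs
  · exact h0
  · exact ENNReal.div_pos (tsub_pos_of_lt h1).ne' (ENNReal.natCast_ne_top _)

/-- The noise. -/
noncomputable def th (hq : 3 ≤ q) (b c : Fin q) (x : Fin q) : PMF (Fin q) :=
  if x = b then law hq c (1 - ep) tsub_le_self else law hq c ep ep_lt_one.le

lemma th_pos (hq : 3 ≤ q) (b c x y : Fin q) : 0 < th hq b c x y := by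
  rw [th]
  split_ifs
  · exact law_pos hq c _ _ (tsub_pos_of_lt ep_lt_one)
      (ENNReal.sub_lt_self ENNReal.one_ne_top one_ne_zero ep_pos.ne') y
  · exact law_pos hq c _ _ ep_pos ep_lt_one y

lemma nu_eq (θ : Fin q → PMF (Fin q)) (b : Fin q) (B : Set (Fin q)) :
    Gen.nu θ {g | g b ∈ B} = (θ b).toMeasure B := by
  have h1 : Gen.nu θ {g | g b ∈ B} = ((Gen.nu θ).map (fun g => g b)) B := by
    rw [Measure.map_apply (by fun_prop) MeasurableSet.of_discrete]; rfl
  rw [h1, Gen.nu_map]

lemma nu_one (hq : 3 ≤ q) (b c : Fin q) : Gen.nu (th hq b c) {g | g b ∈ ({c}ᶜ : Set (Fin q))} ≤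
    (1 / 32 : ℝ≥0∞) ^ 4 := by
  rw [nu_eq, prob_compl_eq_one_sub (MeasurableSet.singleton c),
    PMF.toMeasure_apply_singleton _ _ (MeasurableSet.singleton c), th, if_pos rfl, law_self,
    ENNReal.sub_sub_cancel ENNReal.one_ne_top ep_lt_one.le]
  exact le_rfl

lemma nu_zero (hq : 3 ≤ q) {a b : Fin q} (c : Fin q) (hab : a ≠ b) :
    Gen.nu (th hq b c) {g | g a ∈ ({c} : Set (Fin q))} ≤ (1 / 32 : ℝ≥0∞) ^ 4 := by
  rw [nu_eq, PMF.toMeasure_apply_singleton _ _ (MeasurableSet.singleton c), th, if_neg hab,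
    law_self]
  exact le_rfl

lemma FF_at (a b c : Fin q) (x : Config d q) (i j : ℤ) : FF a b c x (st d i j) =
    if (x (st d i j) = c ∧ x (st d i (j + 1)) = c) ∨
      (x (st d (i + 1) j) = c ∧ x (st d (i + 1) (j + 1)) = c) then b else a := by
  rw [FF_eq, st_add, st_add, st_add, st_add, add_zero, add_zero]

lemma bound_one (hd : 2 ≤ d) (hq : 3 ≤ q) {a b c : Fin q} (n : ℕ) :
    Gen.Pn (Fin d → ℤ) (th hq b c) n
      {h | Gen.Xn (FF a b c) (fun _ => c) n h (st d 0 0) ∈ ({c}ᶜ : Set (Fin q))} ≤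
      (1 / 32 : ℝ≥0∞) := by
  refine Gen.main_bound (FF a b c) (th hq b c) (fun _ => c) (fun p => st d p.1 p.2)
    (fun p p' h => Prod.ext (st_inj hd h).1 (st_inj hd h).2) {g | g b ∈ ({c}ᶜ : Set (Fin q))}
    ({c}ᶜ : Set (Fin q)) (by simp) ?_ (nu_one hq b c) n 0 0
  intro x w i j h
  simp only [FF_at, Set.mem_ofPred_eq, Set.mem_compl_iff, Set.mem_singleton_iff] at h ⊢
  split_ifs at h with hc
  · exact Or.inl h
  · right
    push Not at hc
    by_cases h1 : x (st d i j) = c <;> by_cases h2 : x (st d (i + 1) j) = c <;> simp_all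

lemma bound_zero (hd : 2 ≤ d) (hq : 3 ≤ q) {a b c : Fin q} (hab : a ≠ b) (hac : a ≠ c) (n : ℕ) :
    Gen.Pn (Fin d → ℤ) (th hq b c) n
      {h | Gen.Xn (FF a b c) (fun _ => a) n h (st d 0 0) ∈ ({c} : Set (Fin q))} ≤
      (1 / 32 : ℝ≥0∞) := by
  refine Gen.main_bound (FF a b c) (th hq b c) (fun _ => a) (fun p => st d p.2 p.1)
    (fun p p' h => Prod.ext (st_inj hd h).2 (st_inj hd h).1) {g | g a ∈ ({c} : Set (Fin q))}
    ({c} : Set (Fin q)) (by simp [hac]) ?_ (nu_zero hq c hab) n 0 0
  intro x w i j h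
  simp only [FF_at, Set.mem_ofPred_eq, Set.mem_singleton_iff] at h ⊢
  split_ifs at h with hc
  · right
    rcases hc with hc | hc
    · exact ⟨Or.inl hc.1, Or.inl hc.2⟩
    · exact ⟨Or.inr hc.1, Or.inr hc.2⟩
  · exact Or.inl h

lemma real_le (hq : 3 ≤ q) {a b c : Fin q} (x0 : Config d q) (B : Set (Fin q))
    (n : ℕ) (h : Gen.Pn (Fin d → ℤ) (th hq b c) n
      {h | Gen.Xn (FF a b c) x0 n h (st d 0 0) ∈ B} ≤ (1 / 32 : ℝ≥0∞)) :
    ((Gen.step (FF a b c) (th hq b c))^[n] (Measure.dirac x0)).real {y | y (st d 0 0) ∈ B} ≤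
      1 / 32 := by
  have hm : MeasurableSet {y : Config d q | y (st d 0 0) ∈ B} :=
    (measurable_pi_apply (st d 0 0)) (MeasurableSet.of_discrete (s := B))
  rw [Gen.law_Xn (FF a b c) (continuous_FF a b c).measurable, measureReal_def,
    Measure.map_apply (Gen.measurable_Xn _ (continuous_FF a b c).measurable x0 n) hm]
  have h2 := ENNReal.toReal_mono (by simp) h
  simpa using h2

end Aux

/-- For all `d ≥ 2` and `q ≥ 3` there are a nilpotent cellular automaton `F` on `ℤ^d` with `q`
symbols and a positive zero-range noise `θ` such that the perturbation of `F` by `θ` has two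
different invariant probability measures, and so is not ergodic. -/
theorem result (d q : ℕ) (hd : 2 ≤ d) (hq : 3 ≤ q) :
    ∃ F : Config d q → Config d q, IsCA F ∧ IsNilpotent F ∧
      ∃ θ : Fin q → PMF (Fin q), (∀ b c : Fin q, 0 < θ b c) ∧
        (∃ μ ν : Measure (Config d q), IsProbabilityMeasure μ ∧ IsProbabilityMeasure ν ∧
          perturb F θ μ = μ ∧ perturb F θ ν = ν ∧ μ ≠ ν) ∧
        ¬ IsErgodic (perturb F θ) := by
  set a : Fin q := ⟨0, by omega⟩ with ha
  set b : Fin q := ⟨1, by omega⟩ with hb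
  set c : Fin q := ⟨2, by omega⟩ with hc
  have hab : a ≠ b := by simp [ha, hb]
  have hac : a ≠ c := by simp [ha, hc]
  have hbc : b ≠ c := by simp [hb, hc]
  have hclo : ∀ B : Set (Fin q), IsClopen {y : Config d q | y (st d 0 0) ∈ B} := fun B =>
    (isClopen_discrete B).preimage (continuous_apply (st d 0 0))
  obtain ⟨μ, hμ, hμi, hμb⟩ := Pool.Agent.MP798553.Gen.exists_invariant (FF a b c)
    (continuous_FF (d := d) a b c) (th hq b c) (fun _ => c) _ (hclo {c}ᶜ) (1 / 32)
    (fun n => real_le hq _ _ n (bound_one hd hq n))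
  obtain ⟨ν, hν, hνi, hνb⟩ := Pool.Agent.MP798553.Gen.exists_invariant (FF a b c)
    (continuous_FF (d := d) a b c) (th hq b c) (fun _ => a) _ (hclo {c}) (1 / 32)
    (fun n => real_le hq _ _ n (bound_zero hd hq hab hac n))
  have hne : μ ≠ ν := by
    rintro rfl
    have h1 : {y : Config d q | y (st d 0 0) ∈ ({c}ᶜ : Set (Fin q))} =
        {y : Config d q | y (st d 0 0) ∈ ({c} : Set (Fin q))}ᶜ := rfl
    rw [h1, probReal_compl_eq_one_sub (hclo {c}).isOpen.measurableSet] at hμb
    linarith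
  refine ⟨FF a b c, ⟨nb d, loc a b c, fun x i => rfl⟩, ⟨2, by norm_num, a, FF_nil hac hbc⟩,
    th hq b c, th_pos hq b c, ⟨μ, ν, hμ, hν, hμi, hνi, hne⟩, ?_⟩
  rintro ⟨ρ, -, -, hρ, -⟩
  exact hne ((hρ μ hμ hμi).trans (hρ ν hν hνi).symm)

end Pool.Agent.Results.MP_798553_pr.TwoInvariantMeasures
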